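import Mathlib
import Pool.Agent.Work.MP_12b649_co.Even.Final

/-!
# The derangement representation number is at most the number of vertices

`drn G ≤ |V(G)|` for every finite graph `G` which is not one of the three exceptional graphs
(two or three isolated vertices, the path on three vertices).
-/

namespace Pool.Agent.Results.MP_12b649_co.DrnLeOrder

universe u

/-- `π` is a derangement `k`-representation of the graph `G`: an injective map to the symmetric
group such that distinct `u, v` are adjacent iff `π u i ≠ π v i` for all `i`. -/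
def IsRep {V : Type u} (G : SimpleGraph V) {k : ℕ} (π : V → Equiv.Perm (Fin k)) : Prop :=
  Function.Injective π ∧ ∀ u v, u ≠ v → (G.Adj u v ↔ ∀ i, π u i ≠ π v i)

/-- The derangement representation number: the least positive `k` such that `G` has a derangement
`k`-representation. -/
noncomputable def drn {V : Type u} (G : SimpleGraph V) : ℕ :=
  sInf {k | 0 < k ∧ ∃ π : V → Equiv.Perm (Fin k), IsRep G π}

/-- Let `G` be a finite graph with at least one vertex, not isomorphic to two isolated vertices,
three isolated vertices or the path on three vertices. Then `drn G ≤ |V(G)|` (and `drn G` is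
positive and attained: `G` has a derangement representation by permutations of `drn G`
points). -/
theorem result (V : Type u) [Finite V] [Nonempty V] (G : SimpleGraph V)
    (h0 : ¬ Nonempty (G ≃g (⊥ : SimpleGraph (Fin 2))))
    (h1 : ¬ Nonempty (G ≃g (⊥ : SimpleGraph (Fin 3))))
    (h2 : ¬ Nonempty (G ≃g SimpleGraph.pathGraph 3)) :
    drn G ≤ Nat.card V ∧ 0 < drn G ∧ ∃ π : V → Equiv.Perm (Fin (drn G)), IsRep G π := by
  obtain ⟨k, hk0, hk, hπ⟩ := Pool.Agent.Work.MP_12b649_co.Even.full V G h0 h1 h2
  have hmem : k ∈ {k | 0 < k ∧ ∃ π : V → Equiv.Perm (Fin k), IsRep G π} := ⟨hk0, hπ⟩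
  have hs := Nat.sInf_mem (s := {k | 0 < k ∧ ∃ π : V → Equiv.Perm (Fin k), IsRep G π}) ⟨k, hmem⟩
  exact ⟨(Nat.sInf_le hmem).trans hk, hs.1, hs.2⟩

end Pool.Agent.Results.MP_12b649_co.DrnLeOrder
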